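import Pool.Agent.Lib.MP_9aae89_an.Main

/-!
MP_9aae89_an, Q1, answered in the negative in dimension `n = 3`, for every nonlinearity `f`.
-/

namespace Pool.Agent.Results.MP_9aae89_an.CubicCounterexample

open MeasureTheory Laplacian
open scoped ContDiff

/-- `U` is a one-dimensional solution of the two-phase free boundary problem on `ℝ³` with
constant `a`: the image under a rigid motion `R` of `α x₁⁺ - β x₁⁻`, where `α > 0`, `β ≥ 0` and
`α² - β² = 2a`.  The first coordinate `x₁` of `x` is written `x 0`. -/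
def IsOneDimFreeBoundarySolution (a : ℝ) (U : EuclideanSpace ℝ (Fin 3) → ℝ) : Prop :=
  ∃ (R : EuclideanSpace ℝ (Fin 3) ≃ᵢ EuclideanSpace ℝ (Fin 3)) (α β : ℝ),
    0 < α ∧ 0 ≤ β ∧ α ^ 2 - β ^ 2 = 2 * a ∧
      ∀ x, U (R x) = α * max (x 0) 0 - β * max (-(x 0)) 0

/-- After some rigid motion `R`, the function `u` depends on the first coordinate only. -/
def IsOneDim (u : EuclideanSpace ℝ (Fin 3) → ℝ) : Prop :=
  ∃ (R : EuclideanSpace ℝ (Fin 3) ≃ᵢ EuclideanSpace ℝ (Fin 3)) (V : ℝ → ℝ),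
    ∀ x, u (R x) = V (x 0)

/-- For every smooth compactly supported `f ≥ 0` with positive integral there is a classical
solution `u` of `Δ u = f(u)` on `ℝ³` which is topologically equivalent to a one-dimensional
solution of the free boundary problem but is not one-dimensional.  The solution is strictly
monotone in the first coordinate and grows at most cubically. -/
theorem result (f : ℝ → ℝ) (hf : ContDiff ℝ ∞ f) (hfc : HasCompactSupport f)
    (_hf0 : ∀ t, 0 ≤ f t) (hfint : 0 < ∫ t, f t) :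
    ∃ u : EuclideanSpace ℝ (Fin 3) → ℝ,
      ContDiff ℝ 2 u ∧ (∀ x, Δ u x = f (u x)) ∧
      (∃ C : ℝ, ∀ x, |u x| ≤ C * (1 + ‖x‖ ^ 3)) ∧
      (∀ x, 0 < fderiv ℝ u x (EuclideanSpace.single 0 1)) ∧
      (∃ (U : EuclideanSpace ℝ (Fin 3) → ℝ)
        (Φ : EuclideanSpace ℝ (Fin 3) ≃ₜ EuclideanSpace ℝ (Fin 3)),
        IsOneDimFreeBoundarySolution (∫ t, f t) U ∧ ∀ x, u x = U (Φ x)) ∧
      ¬ IsOneDim u := by
  obtain ⟨u, h1, h2, h3, h4, h5, h6⟩ := Pool.Agent.Lib.MP_9aae89_an.main (hf.of_le (by simp)) hfc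
  have hs : 0 < 2 * (∫ t, f t) + 1 := by linarith
  obtain ⟨Φ, hΦ⟩ := h5 (Real.sqrt (2 * (∫ t, f t) + 1)) 1 (Real.sqrt_pos.mpr hs) one_pos
  refine ⟨u, h1, h2, h3, ?_, ?_, h6⟩
  · intro x
    have := h4 x
    simpa [Pool.Agent.Lib.MP_9aae89_an.ob] using this
  · refine ⟨fun x => Real.sqrt (2 * (∫ t, f t) + 1) * max (x 0) 0 - 1 * max (-(x 0)) 0, Φ,
      ⟨IsometryEquiv.refl _, Real.sqrt (2 * (∫ t, f t) + 1), 1, Real.sqrt_pos.mpr hs, zero_le_one,
        ?_, fun x => rfl⟩, hΦ⟩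
    rw [Real.sq_sqrt hs.le]
    ring

end Pool.Agent.Results.MP_9aae89_an.CubicCounterexample
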